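import Pool.Agent.W861.TF.Stm

/-!
# The symmetrisation inequality (part ALG of helper861's project TF)
-/

set_option autoImplicit false

namespace Pool.Agent.W933.TF

open Pool.Agent.W861.TF

theorem le_of_cs {P M₁ M₂ : ℝ} (h : P ^ 2 ≤ M₁ * M₂) (h₁ : 0 ≤ M₁) (h₂ : 0 ≤ M₂) :
    P ≤ max M₁ M₂ := by
  have h3 : P ^ 2 ≤ (max M₁ M₂) ^ 2 := by
    refine h.trans ?_
    rw [sq]
    exact mul_le_mul (le_max_left _ _) (le_max_right _ _) h₂ (h₁.trans (le_max_left _ _))
  exact (abs_le_of_sq_le_sq' h3 (h₁.trans (le_max_left _ _))).2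

section abstract_part

variable {A : Type*} [CommRing A] [Algebra ℝ A] (st : A →ₐ[ℝ] A) (hst : ∀ a, st (st a) = a)
  (G : A →ₗ[ℝ] ℝ) (hG : ∀ a, G (st a) = G a) (hpos : ∀ a, 0 ≤ G (st a * a))

include hst hG hpos

theorem cs (a b : A) : G (st a * b) ^ 2 ≤ G (st a * a) * G (st b * b) := by
  have hsym : G (st b * a) = G (st a * b) := by
    rw [← hG (st b * a), map_mul, hst, mul_comm]
  have h : ∀ t : ℝ, 0 ≤ G (st a * a) * (t * t) + (2 * G (st a * b)) * t + G (st b * b) := by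
    intro t
    have h1 := hpos (t • a + b)
    have e : st (t • a + b) * (t • a + b) =
        (t * t) • (st a * a) + t • (st a * b) + t • (st b * a) + st b * b := by
      rw [map_add, map_smul]
      simp only [add_mul, mul_add, smul_mul_assoc, mul_smul_comm, smul_smul, smul_add]
      abel
    rw [e, map_add, map_add, map_add, map_smul, map_smul, map_smul, hsym] at h1
    simp only [smul_eq_mul] at h1
    linarith
  have := discrim_le_zero h
  unfold discrim at this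
  nlinarith

variable {ι : Type*} [DecidableEq ι]

theorem prod_le (j : ℕ) : ∀ (S : Finset ι), S.card = 2 ^ j → ∀ (ν : ι → A),
    (∀ b, st (ν b) = ν b) → ∃ b ∈ S, G (∏ i ∈ S, ν i) ≤ G (ν b ^ (2 ^ j)) := by
  induction j with
  | zero =>
    intro S hS ν hν
    rw [pow_zero, Finset.card_eq_one] at hS
    obtain ⟨b, rfl⟩ := hS
    exact ⟨b, Finset.mem_singleton_self b, by simp⟩
  | succ j ih =>
    intro S hS ν hν
    obtain ⟨T, hTS, hT⟩ := Finset.exists_subset_card_eq (s := S) (n := 2 ^ j)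
      (by rw [hS, pow_succ]; omega)
    have hT' : (S \ T).card = 2 ^ j := by
      rw [Finset.card_sdiff_of_subset hTS, hS, hT, pow_succ]; omega
    have hself : ∀ U : Finset ι, st (∏ i ∈ U, ν i) = ∏ i ∈ U, ν i := by
      intro U
      rw [map_prod]
      exact Finset.prod_congr rfl fun i _ => hν i
    have hsq : ∀ U : Finset ι, st (∏ i ∈ U, ν i) * (∏ i ∈ U, ν i) = ∏ i ∈ U, ν i ^ 2 := by
      intro U
      rw [hself, Finset.prod_pow, sq]
    obtain ⟨b₁, hb₁, h₁⟩ := ih T hT (fun i => ν i ^ 2) (fun b => by simp [hν])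
    obtain ⟨b₂, hb₂, h₂⟩ := ih (S \ T) hT' (fun i => ν i ^ 2) (fun b => by simp [hν])
    have hc := cs st hst G hG hpos (∏ i ∈ T, ν i) (∏ i ∈ S \ T, ν i)
    rw [hsq, hsq, hself] at hc
    have e : (∏ i ∈ T, ν i) * (∏ i ∈ S \ T, ν i) = ∏ i ∈ S, ν i := by
      rw [mul_comm, Finset.prod_sdiff hTS]
    rw [e] at hc
    have hn₁ : 0 ≤ G (∏ i ∈ T, ν i ^ 2) := by rw [← hsq]; exact hpos _
    have hn₂ : 0 ≤ G (∏ i ∈ S \ T, ν i ^ 2) := by rw [← hsq]; exact hpos _
    have hpw : ∀ b, (ν b ^ 2) ^ (2 ^ j) = ν b ^ (2 ^ (j + 1)) := by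
      intro b; rw [← pow_mul, pow_succ, mul_comm]
    simp only [hpw] at h₁ h₂
    have hc' : G (∏ i ∈ S, ν i) ^ 2 ≤ G (ν b₁ ^ 2 ^ (j + 1)) * G (ν b₂ ^ 2 ^ (j + 1)) :=
      hc.trans (mul_le_mul h₁ h₂ hn₂ (hn₁.trans h₁))
    have hm := le_of_cs hc' (hn₁.trans h₁) (hn₂.trans h₂)
    rcases max_cases (G (ν b₁ ^ 2 ^ (j + 1))) (G (ν b₂ ^ 2 ^ (j + 1))) with h | h
    · exact ⟨b₁, hTS hb₁, by rw [h.1] at hm; exact hm⟩
    · exact ⟨b₂, (Finset.mem_sdiff.1 hb₂).1, by rw [h.1] at hm; exact hm⟩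

theorem prod_le' (s : ℕ) (hs : 1 ≤ s) (S : Finset ι) (hS : S.card = 2 ^ s) (μ : ι → A) (u : A)
    (hu : u * st u = 1) :
    ∃ b ∈ S, G (u * ∏ i ∈ S, μ i) ≤ G ((st (μ b) * μ b) ^ (2 ^ (s - 1))) := by
  obtain ⟨j, rfl⟩ : ∃ j, s = j + 1 := ⟨s - 1, by omega⟩
  simp only [Nat.add_sub_cancel]
  obtain ⟨T, hTS, hT⟩ := Finset.exists_subset_card_eq (s := S) (n := 2 ^ j)
    (by rw [hS, pow_succ]; omega)
  have hT' : (S \ T).card = 2 ^ j := by
    rw [Finset.card_sdiff_of_subset hTS, hS, hT, pow_succ]; omega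
  have hself : ∀ b, st (st (μ b) * μ b) = st (μ b) * μ b := by
    intro b
    rw [map_mul, hst, mul_comm]
  obtain ⟨b₁, hb₁, h₁⟩ := prod_le st hst G hG hpos j T hT (fun i => st (μ i) * μ i) hself
  obtain ⟨b₂, hb₂, h₂⟩ := prod_le st hst G hG hpos j (S \ T) hT' (fun i => st (μ i) * μ i) hself
  have hc := cs st hst G hG hpos (st (u * ∏ i ∈ T, μ i)) (∏ i ∈ S \ T, μ i)
  have e1 : st (st (u * ∏ i ∈ T, μ i)) * (∏ i ∈ S \ T, μ i) = u * ∏ i ∈ S, μ i := by
    rw [hst, mul_assoc, mul_comm (∏ i ∈ T, μ i), Finset.prod_sdiff hTS]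
  have e2 : st (st (u * ∏ i ∈ T, μ i)) * st (u * ∏ i ∈ T, μ i) = ∏ i ∈ T, (st (μ i) * μ i) := by
    rw [hst, map_mul, Finset.prod_mul_distrib, ← map_prod]
    linear_combination (st (∏ i ∈ T, μ i) * ∏ i ∈ T, μ i) * hu
  have e3 : st (∏ i ∈ S \ T, μ i) * (∏ i ∈ S \ T, μ i) = ∏ i ∈ S \ T, (st (μ i) * μ i) := by
    rw [Finset.prod_mul_distrib, ← map_prod]
  have hn₁ : 0 ≤ G (∏ i ∈ T, (st (μ i) * μ i)) := by
    have := hpos (∏ i ∈ T, μ i)
    rwa [map_prod, ← Finset.prod_mul_distrib] at this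
  have hn₂ : 0 ≤ G (∏ i ∈ S \ T, (st (μ i) * μ i)) := by rw [← e3]; exact hpos _
  rw [e1, e2, e3] at hc
  have hc' := hc.trans (mul_le_mul h₁ h₂ hn₂ (hn₁.trans h₁))
  have hm := le_of_cs hc' (hn₁.trans h₁) (hn₂.trans h₂)
  rcases max_cases (G ((st (μ b₁) * μ b₁) ^ 2 ^ j)) (G ((st (μ b₂) * μ b₂) ^ 2 ^ j)) with h | h
  · exact ⟨b₁, hTS hb₁, by rw [h.1] at hm; exact hm⟩
  · exact ⟨b₂, (Finset.mem_sdiff.1 hb₂).1, by rw [h.1] at hm; exact hm⟩

end abstract_part

section concrete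

variable (n : ℕ)

/-- the group algebra -/
abbrev GA (n : ℕ) : Type := AddMonoidAlgebra ℝ (Fin n → ℤ)

/-- the involution -/
noncomputable def st : GA n →ₐ[ℝ] GA n :=
  (AddMonoidAlgebra.domCongr ℝ ℝ (AddEquiv.neg (Fin n → ℤ))).toAlgHom

variable {n}

theorem st_single (y : Fin n → ℤ) (r : ℝ) :
    st n (AddMonoidAlgebra.single y r) = AddMonoidAlgebra.single (-y) r := by
  unfold st
  simp

theorem coeff_st (a : GA n) (y : Fin n → ℤ) : (st n a).coeff y = a.coeff (-y) := by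
  unfold st
  simp

theorem st_st (a : GA n) : st n (st n a) = a := by
  ext y
  rw [coeff_st, coeff_st, neg_neg]

theorem tau_pos (a : GA n) : 0 ≤ (st n a * a).coeff 0 := by
  have h : ∀ a b : GA n, (st n a * b).coeff 0 = a.coeff.sum fun t r => r * b.coeff t := by
    intro a b
    induction a using AddMonoidAlgebra.induction_linear with
    | zero => simp
    | add f g hf hg =>
      rw [map_add, add_mul, AddMonoidAlgebra.coeff_add, Finsupp.add_apply, hf, hg,
        AddMonoidAlgebra.coeff_add, Finsupp.sum_add_index']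
      · simp
      · intro t r₁ r₂; ring
    | single y r =>
      rw [st_single, AddMonoidAlgebra.coeff_single_mul_apply]
      rw [AddMonoidAlgebra.coeff_single, Finsupp.sum_single_index (by simp)]
      simp
  rw [h, Finsupp.sum]
  exact Finset.sum_nonneg fun t _ => mul_self_nonneg _

/-- the positive functional of `β` -/
noncomputable def G (β : GA n) : GA n →ₗ[ℝ] ℝ where
  toFun μ := (st n β * β * μ).coeff 0
  map_add' := by intro x y; simp [mul_add]
  map_smul' := by intro x y; simp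

theorem G_apply (β μ : GA n) : G β μ = (st n β * β * μ).coeff 0 := rfl

theorem G_st (β a : GA n) : G β (st n a) = G β a := by
  rw [G_apply, G_apply]
  have e : st n β * β * st n a = st n (st n β * β * a) := by
    rw [map_mul, map_mul, st_st, mul_comm β]
  rw [e, coeff_st, neg_zero]

theorem G_pos (β a : GA n) : 0 ≤ G β (st n a * a) := by
  rw [G_apply]
  have e : st n β * β * (st n a * a) = st n (β * a) * (β * a) := by
    rw [map_mul]; ring
  rw [e]
  exact tau_pos _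

/-- the box -/
noncomputable def box (n σ : ℕ) : Finset (Fin n → ℤ) := Fintype.piFinset fun _ => Finset.Ico (0 : ℤ) (2 * σ)

/-- the sum over the box -/
noncomputable def β (n σ : ℕ) : GA n := ∑ b ∈ box n σ, AddMonoidAlgebra.single b 1

/-- number of representations -/
noncomputable def gt (σ : ℕ) (y : Fin n → ℤ) : ℕ := ((box n σ).filter fun b => b - y ∈ box n σ).card

theorem G_single (σ : ℕ) (y : Fin n → ℤ) (r : ℝ) :
    G (β n σ) (AddMonoidAlgebra.single y r) = r * gt σ y := by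
  rw [G_apply]
  unfold β
  rw [map_sum]
  simp only [st_single]
  rw [Finset.sum_mul_sum, Finset.sum_mul, AddMonoidAlgebra.coeff_sum, Finsupp.finsetSum_apply]
  have h1 : ∀ b ∈ box n σ, ((∑ j ∈ box n σ, AddMonoidAlgebra.single (-b) (1:ℝ) *
      AddMonoidAlgebra.single j (1:ℝ)) * AddMonoidAlgebra.single y r).coeff 0 =
      if b - y ∈ box n σ then r else 0 := by
    intro b hb
    rw [Finset.sum_mul, AddMonoidAlgebra.coeff_sum, Finsupp.finsetSum_apply]
    rw [← Finset.sum_ite_eq' (box n σ) (b - y) (fun _ => r)]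
    refine Finset.sum_congr rfl fun j _ => ?_
    rw [AddMonoidAlgebra.single_mul_single, AddMonoidAlgebra.single_mul_single,
      AddMonoidAlgebra.coeff_single, Finsupp.single_apply]
    simp only [one_mul]
    refine if_congr ?_ rfl rfl
    constructor
    · intro h
      have : j = b - y := by
        have h' : j = b - y + (-b + j + y) := by abel
        rw [h'] ; rw [h]; simp
      exact this
    · rintro rfl; abel
  rw [Finset.sum_congr rfl h1, ← Finset.sum_filter, Finset.sum_const, nsmul_eq_mul, mul_comm]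
  rfl

theorem mem_box {σ : ℕ} {b : Fin n → ℤ} :
    b ∈ box n σ ↔ ∀ j, 0 ≤ b j ∧ b j < 2 * (σ : ℤ) := by
  simp [box]

theorem gt_le (σ : ℕ) (y : Fin n → ℤ) : gt σ y ≤ (2 * σ) ^ n := by
  refine (Finset.card_filter_le _ _).trans ?_
  unfold box
  rw [Fintype.card_piFinset]
  simp only [Int.card_Ico, sub_zero, Finset.prod_const, Finset.card_univ, Fintype.card_fin]
  apply Nat.pow_le_pow_left
  omega

theorem gt_zero (σ : ℕ) (y : Fin n → ℤ) (h : ¬ ∀ j, |y j| ≤ 2 * (σ : ℤ)) : gt σ y = 0 := by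
  unfold gt
  rw [Finset.card_eq_zero, Finset.filter_eq_empty_iff]
  intro b hb hb'
  apply h
  intro j
  rw [mem_box] at hb hb'
  have h1 := hb j
  have h2 := hb' j
  simp only [Pi.sub_apply] at h2
  rw [abs_le]
  constructor <;> omega

theorem le_gt (σ : ℕ) (y : Fin n → ℤ) (h : ∀ j, |y j| ≤ (σ : ℤ)) : σ ^ n ≤ gt σ y := by
  have h1 : (Fintype.piFinset fun _ : Fin n => Finset.Ico (0 : ℤ) σ).card = σ ^ n := by
    rw [Fintype.card_piFinset]
    simp
  rw [← h1]
  unfold gt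
  refine Finset.card_le_card_of_injOn (fun c j => c j + max (y j) 0) ?_ ?_
  · intro c hc
    have hc' : ∀ j, 0 ≤ c j ∧ c j < (σ : ℤ) := by simpa using hc
    rw [Finset.coe_filter, Set.mem_ofPred_eq, mem_box, mem_box]
    constructor
    · intro j
      have h2 := hc' j
      have h3 := abs_le.1 (h j)
      simp only
      constructor <;> omega
    · intro j
      have h2 := hc' j
      have h3 := abs_le.1 (h j)
      simp only [Pi.sub_apply]
      constructor <;> omega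
  · intro c _ c' _ he
    funext j
    have := congrFun he j
    simpa using this

/-- the one-step factor -/
theorem one_add_single (v : Fin n → ℤ) :
    (1 + AddMonoidAlgebra.single v (1 : ℝ) : GA n) =
      ∑ e : Fin 2, AddMonoidAlgebra.single (((e : ℕ) : ℤ) • v) (1 : ℝ) := by
  rw [Fin.sum_univ_two]
  simp [AddMonoidAlgebra.one_def]

/-- expansion of the Bernoulli product -/
theorem expand {B m : ℕ} (V : Fin B → Fin m → Fin n → ℤ) (x : Fin n → ℤ) :
    (AddMonoidAlgebra.single x (1 : ℝ) : GA n) *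
      ∏ b, ∏ i, (1 + AddMonoidAlgebra.single (V b i) (1 : ℝ)) =
    ∑ ε : Fin B → Fin m → Fin 2,
      AddMonoidAlgebra.single (x + ∑ b, ∑ i, ((ε b i : ℕ) : ℤ) • V b i) (1 : ℝ) := by
  have h1 : ∀ b, ∏ i, (1 + AddMonoidAlgebra.single (V b i) (1 : ℝ) : GA n) =
      ∑ ε : Fin m → Fin 2, AddMonoidAlgebra.single (∑ i, ((ε i : ℕ) : ℤ) • V b i) (1 : ℝ) := by
    intro b
    simp only [one_add_single]
    rw [Fintype.prod_sum]
    refine Finset.sum_congr rfl fun ε _ => ?_
    rw [AddMonoidAlgebra.prod_single]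
    simp
  simp only [h1]
  rw [Fintype.prod_sum, Finset.mul_sum]
  refine Finset.sum_congr rfl fun ε _ => ?_
  rw [AddMonoidAlgebra.prod_single, AddMonoidAlgebra.single_mul_single]
  simp

/-- expansion of the symmetrised power -/
theorem expand_pow (s : ℕ) (hs : 1 ≤ s) {m : ℕ} (W : Fin m → Fin n → ℤ) :
    ((st n (∏ i, (1 + AddMonoidAlgebra.single (W i) (1 : ℝ))) *
      ∏ i, (1 + AddMonoidAlgebra.single (W i) (1 : ℝ))) ^ (2 ^ (s - 1)) : GA n) =
    ∑ κ : Fin m → Fin (2 ^ s + 1),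
      AddMonoidAlgebra.single (∑ i, (((κ i : ℕ) : ℤ) - 2 ^ (s - 1)) • W i)
        (∏ i, ((2 ^ s).choose (κ i) : ℝ)) := by
  obtain ⟨j, rfl⟩ : ∃ j, s = j + 1 := ⟨s - 1, by omega⟩
  simp only [Nat.add_sub_cancel]
  have h1 : ∀ v : Fin n → ℤ,
      ((st n (1 + AddMonoidAlgebra.single v (1 : ℝ)) *
        (1 + AddMonoidAlgebra.single v (1 : ℝ))) ^ (2 ^ j) : GA n) =
      ∑ κ : Fin (2 ^ (j + 1) + 1),
        AddMonoidAlgebra.single ((((κ : ℕ) : ℤ) - 2 ^ j) • v) ((2 ^ (j + 1)).choose κ : ℝ) := by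
    intro v
    have e : (st n (1 + AddMonoidAlgebra.single v (1 : ℝ)) *
        (1 + AddMonoidAlgebra.single v (1 : ℝ)) : GA n) =
        AddMonoidAlgebra.single (-v) (1 : ℝ) * (1 + AddMonoidAlgebra.single v (1 : ℝ)) ^ 2 := by
      rw [map_add, map_one, st_single]
      have h0 : (AddMonoidAlgebra.single (-v) (1 : ℝ) * AddMonoidAlgebra.single v (1 : ℝ) : GA n)
          = 1 := by
        rw [AddMonoidAlgebra.single_mul_single]
        simp [AddMonoidAlgebra.one_def]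
      linear_combination (-1 - AddMonoidAlgebra.single v (1 : ℝ)) * h0
    rw [e, mul_pow, ← pow_mul, ← pow_succ', AddMonoidAlgebra.single_pow]
    rw [add_comm (1 : GA n), add_pow, Finset.sum_range, Finset.mul_sum]
    refine Finset.sum_congr rfl fun κ _ => ?_
    simp only [one_pow, mul_one, AddMonoidAlgebra.single_pow]
    have hc : (((2 ^ (j + 1)).choose (κ : ℕ) : ℕ) : GA n) =
        AddMonoidAlgebra.single 0 (((2 ^ (j + 1)).choose (κ : ℕ) : ℕ) : ℝ) :=
      AddMonoidAlgebra.natCast_def _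
    rw [hc, AddMonoidAlgebra.single_mul_single, AddMonoidAlgebra.single_mul_single]
    congr 1
    · rw [sub_smul, add_zero]
      have : (2 ^ j : ℤ) • v = (2 ^ j : ℕ) • v := by
        rw [← natCast_zsmul]; push_cast; rfl
      rw [this, natCast_zsmul, smul_neg]
      abel
    · simp
  rw [map_prod, ← Finset.prod_mul_distrib, ← Finset.prod_pow]
  simp only [h1]
  rw [Fintype.prod_sum]
  refine Finset.sum_congr rfl fun κ _ => ?_
  rw [AddMonoidAlgebra.prod_single]

/-- the counting step -/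
theorem count {E I : Type*} [Fintype E] [Fintype I] (σ : ℕ) (hσ : 1 ≤ σ) (f : E → Fin n → ℤ)
    (g : I → Fin n → ℤ) (c : I → ℕ) (K : Finset I)
    (hK : ∀ κ, (∀ j, |g κ j| ≤ 2 * (σ : ℤ)) → κ ∈ K)
    (h : ∑ ε, gt σ (f ε) ≤ ∑ κ, c κ * gt σ (g κ)) :
    Set.ncard {ε | ∀ j, |f ε j| ≤ (σ : ℤ)} ≤ 2 ^ n * ∑ κ ∈ K, c κ := by
  classical
  have hlow : Set.ncard {ε | ∀ j, |f ε j| ≤ (σ : ℤ)} * σ ^ n ≤ ∑ ε, gt σ (f ε) := by
    rw [Set.ncard_eq_toFinset_card', ← smul_eq_mul, ← Finset.sum_const]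
    refine (Finset.sum_le_sum (f := fun _ => σ ^ n)
      (g := fun ε => gt σ (f ε)) ?_).trans
      (Finset.sum_le_sum_of_subset (Finset.subset_univ _))
    intro ε hε
    apply le_gt
    simpa using hε
  have hup : (∑ κ, c κ * gt σ (g κ)) ≤ (2 * σ) ^ n * ∑ κ ∈ K, c κ := by
    rw [Finset.mul_sum]
    have : (∑ κ, c κ * gt σ (g κ)) = ∑ κ ∈ K, c κ * gt σ (g κ) := by
      symm
      apply Finset.sum_subset (Finset.subset_univ _)
      intro κ _ hκ
      rw [gt_zero, mul_zero]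
      intro h
      exact hκ (hK κ h)
    rw [this]
    apply Finset.sum_le_sum
    intro κ _
    rw [mul_comm]
    exact Nat.mul_le_mul_right _ (gt_le _ _)
  have htot := (hlow.trans h).trans hup
  have hσn : 0 < σ ^ n := pow_pos (by omega) n
  refine Nat.le_of_mul_le_mul_right ?_ hσn
  refine htot.trans (le_of_eq ?_)
  rw [mul_pow]; ring

theorem alg : S_ALG := by
  intro s n m σ hs hσ V x
  classical
  set μ : Fin (2 ^ s) → GA n := fun b => ∏ i, (1 + AddMonoidAlgebra.single (V b i) (1 : ℝ)) with hμ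
  obtain ⟨b, -, hb⟩ := prod_le' (st n) st_st (G (β n σ)) (G_st _) (G_pos _) s hs
    (Finset.univ : Finset (Fin (2 ^ s))) (by simp) μ (AddMonoidAlgebra.single x 1) (by
      rw [st_single, AddMonoidAlgebra.single_mul_single]
      simp [AddMonoidAlgebra.one_def])
  rw [hμ] at hb
  simp only at hb
  rw [expand, expand_pow s hs] at hb
  rw [map_sum, map_sum] at hb
  simp only [G_single, one_mul] at hb
  refine ⟨b, Finset.univ.filter fun κ =>
    ∀ j, |(∑ i, (((κ i : ℕ) : ℤ) - 2 ^ (s - 1)) • V b i) j| ≤ 2 * (σ : ℤ), ?_, ?_⟩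
  · intro κ hκ
    exact (Finset.mem_filter.1 hκ).2
  · refine count σ hσ (fun ε : Fin (2 ^ s) → Fin m → Fin 2 =>
      x + ∑ b, ∑ i, ((ε b i : ℕ) : ℤ) • V b i)
      (fun κ : Fin m → Fin (2 ^ s + 1) => ∑ i, (((κ i : ℕ) : ℤ) - 2 ^ (s - 1)) • V b i)
      (fun κ => ∏ i, (2 ^ s).choose (κ i)) _ ?_ ?_
    · intro κ hκ
      exact Finset.mem_filter.2 ⟨Finset.mem_univ _, hκ⟩
    · exact_mod_cast hb

end concrete

end Pool.Agent.W933.TF

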